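import Mathlib
import Pool.Agent.Helper78_ACIT.Circuit

set_option autoImplicit false

/-!
# A greedy search for a point at which no nonzero gate of an arithmetic formula vanishes

A point is given by a list of pairs (index of a coordinate, value).  The walk visits the gates in
their order.  At gate `i` it searches all points which differ from the current point in at most `B`
coordinates, with new values in `{0, ..., L}`, for a point at which gate `i` does not vanish and at
which no earlier gate vanishes that does not vanish at the current point.
-/

namespace Pool.Agent.WBX

open Pool.Agent.Helper78_ACIT

/-- The positions of the gates used by a gate. -/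
def refs : Gate → List ℕ
  | .zero => []
  | .one => []
  | .var _ => []
  | .add a b => [a, b]
  | .sub a b => [a, b]
  | .mul a b => [a, b]

/-- Every gate is used at most once: the circuit is a formula. -/
def FanOutOne (G : List Gate) : Prop := ∀ j, (G.flatMap refs).count j ≤ 1

/-- The indices of the variables of a circuit, one entry for every gate that is a variable. -/
def varList (G : List Gate) : List ℕ :=
  G.filterMap fun g => match g with
    | .var v => some v
    | _ => none

/-- The coordinate with index `v` of the point given by a list of pairs (index, value): the value in
the first pair with index `v`, and `0` if there is no such pair. -/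
def coord (b : List (ℕ × ℕ)) (v : ℕ) : ℕ := (b.lookup v).getD 0

/-- The points obtained from the point `b` by at most `B` changes of one coordinate, with index in
`V`, to a value in `{0, ..., L}`. -/
def nearby (V : List ℕ) (L : ℕ) : ℕ → List (ℕ × ℕ) → List (List (ℕ × ℕ))
  | 0, b => [b]
  | B + 1, b => (nearby V L B b).flatMap fun c =>
      c :: V.flatMap fun v => (List.range (L + 1)).map fun a => (v, a) :: c

/-- The values of the gates of the circuit `G` at a point. -/
def valuesAt (G : List Gate) (b : List (ℕ × ℕ)) : List ℤ := values (fun v => (coord b v : ℤ)) G

/-- Gate `i` and all gates `j < i` which do not vanish at `b` do not vanish at `c`. -/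
def better (G : List Gate) (i : ℕ) (b c : List (ℕ × ℕ)) : Bool :=
  let x := valuesAt G b
  let y := valuesAt G c
  decide (y.getD i 0 ≠ 0) && (List.range i).all fun j => decide (x.getD j 0 = 0 ∨ y.getD j 0 ≠ 0)

/-- The point of the walk after `i` steps: it starts in `0`, and step `i` replaces the current point
`b` by the first better point near `b`, if there is any. -/
def walk (B L : ℕ) (G : List Gate) : ℕ → List (ℕ × ℕ)
  | 0 => []
  | i + 1 =>
    let b := walk B L G i
    ((nearby (varList G) L B b).find? (better G i b)).getD b

end Pool.Agent.WBX
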