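import Mathlib
import Pool.Agent.Helper12_WBX.Walk

set_option autoImplicit false

/-! Formulas as trees. -/

namespace Pool.Agent.WBX

open Pool.Agent.Helper78_ACIT

/-- Formulas as trees. -/
inductive Fm where
  | zero : Fm
  | one : Fm
  | var (v : ℕ) : Fm
  | add (f g : Fm) : Fm
  | sub (f g : Fm) : Fm
  | mul (f g : Fm) : Fm

namespace Fm

/-- The value of a formula. -/
def eval {A : Type} [CommRing A] (x : ℕ → A) : Fm → A
  | zero => 0
  | one => 1
  | var v => x v
  | add f g => f.eval x + g.eval x
  | sub f g => f.eval x - g.eval x
  | mul f g => f.eval x * g.eval x

/-- The number of leaves labelled by the variable `v`. -/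
def reads (v : ℕ) : Fm → ℕ
  | zero => 0
  | one => 0
  | var w => if w = v then 1 else 0
  | add f g => f.reads v + g.reads v
  | sub f g => f.reads v + g.reads v
  | mul f g => f.reads v + g.reads v

/-- The number of leaves. -/
def leaves : Fm → ℕ
  | zero => 1
  | one => 1
  | var _ => 1
  | add f g => f.leaves + g.leaves
  | sub f g => f.leaves + g.leaves
  | mul f g => f.leaves + g.leaves

/-- The number of levels. -/
def depth : Fm → ℕ
  | zero => 1
  | one => 1
  | var _ => 1
  | add f g => max f.depth g.depth + 1
  | sub f g => max f.depth g.depth + 1
  | mul f g => max f.depth g.depth + 1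

/-- The child in direction `d`. -/
def child (d : Bool) : Fm → Option Fm
  | zero => none
  | one => none
  | var _ => none
  | add f g => some (if d = true then g else f)
  | sub f g => some (if d = true then g else f)
  | mul f g => some (if d = true then g else f)

/-- The subformula with a given address. -/
def desc : List Bool → Fm → Option Fm
  | [], f => some f
  | d :: ξ, f => (f.child d).bind (desc ξ)

end Fm

/-- The formula computed by gate `j`, with fuel. -/
def unf (G : List Gate) : ℕ → ℕ → Fm
  | 0, _ => .zero
  | m + 1, j => match G[j]? with
    | some .zero => .zero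
    | some .one => .one
    | some (.var v) => .var v
    | some (.add a b) => .add (unf G m a) (unf G m b)
    | some (.sub a b) => .sub (unf G m a) (unf G m b)
    | some (.mul a b) => .mul (unf G m a) (unf G m b)
    | none => .zero

end Pool.Agent.WBX
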