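import Mathlib
import Pool.Agent.Helper12_WBX.Defs
import Pool.Agent.Helper12_TRN.Stmts

set_option autoImplicit false

/-! Statements of the modules of the squad WBX (white-box test for constant-read formulas). -/

namespace Pool.Agent.WBX

open Pool.Agent.Helper78_ACIT Pool.Agent.TRN Matrix

/-- UNV. The unfolding computes the values of the gates (over every commutative ring). -/
def UnvStmt : Prop :=
  ∀ (A : Type) [CommRing A] (x : ℕ → A) (G : List Gate),
    (∀ (i : ℕ) (g : Gate), G[i]? = some g → g.RefsBelow i) → ∀ j, j < G.length →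
    (values x G).getD j 0 = (unf G (j + 1) j).eval x

/-- UNR. In a circuit in which every gate is used at most once, the unfolding of a gate reads every
variable at most as often as the circuit, and has at most as many leaves as the circuit has gates.
(Suggestion: prove by induction on `m` that the sum of `(unf G (j + 1) j).reads v` over all `j < m`
that are not used by the gates `< m` is at most the number of gates `var v` among the first `m`.) -/
def UnrStmt : Prop :=
  ∀ (G : List Gate), (∀ (i : ℕ) (g : Gate), G[i]? = some g → g.RefsBelow i) → FanOutOne G → ∀ j, j < G.length →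
    (∀ v, (unf G (j + 1) j).reads v ≤ G.count (.var v)) ∧ (unf G (j + 1) j).leaves ≤ G.length

/-- UND. The proper subformulas of the unfolding of a gate are unfoldings of earlier gates. -/
def UndStmt : Prop :=
  ∀ (G : List Gate), (∀ (i : ℕ) (g : Gate), G[i]? = some g → g.RefsBelow i) → ∀ j, j < G.length →
    ∀ (ξ : List Bool) (g : Fm), ξ ≠ [] → (unf G (j + 1) j).desc ξ = some g →
    ∃ i, i < j ∧ g = unf G (i + 1) i

/-- GRD. If finitely many formulas are nonzero at points which differ from `b` only in `S`, then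
they are simultaneously nonzero at a point which differs from `b` only in `S`, and whose coordinates
in `S` are at most `m`, a bound for the total number of reads of every variable in `S`. -/
def GrdStmt : Prop :=
  ∀ (fs : List Fm) (S : Finset ℕ) (b : ℕ → ℕ) (m : ℕ),
    (∀ v ∈ S, (fs.map (Fm.reads v)).sum ≤ m) →
    (∀ f ∈ fs, ∃ y : ℕ → ℚ, (∀ v, v ∉ S → y v = b v) ∧ f.eval y ≠ 0) →
    ∃ c : ℕ → ℕ, (∀ v, v ∉ S → c v = b v) ∧ (∀ v ∈ S, c v ≤ m) ∧
      ∀ f ∈ fs, f.eval (fun v => (c v : ℤ)) ≠ 0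

/-- NEA. Properties of `nearby`. -/
def NeaStmt : Prop :=
  ∀ (V : List ℕ) (L B : ℕ) (b : List (ℕ × ℕ)),
    (nearby V L B b).length = (1 + V.length * (L + 1)) ^ B ∧
    (∀ c ∈ nearby V L B b, c.length ≤ b.length + B) ∧
    ((∀ v, coord b v ≤ L) → ∀ c ∈ nearby V L B b, ∀ v, coord c v ≤ L) ∧
    ∀ (S : Finset ℕ) (c : ℕ → ℕ), S.card ≤ B → (∀ v ∈ S, v ∈ V) → (∀ v ∈ S, c v ≤ L) →
      (∀ v, v ∉ S → c v = coord b v) → ∃ c' ∈ nearby V L B b, coord c' = c

/-- BIT. The size of the value of a formula at a point with coordinates at most `L`. -/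
def BitStmt : Prop :=
  ∀ (f : Fm) (L : ℕ) (x : ℕ → ℕ), (∀ v, x v ≤ L) →
    (f.eval (fun v => (x v : ℤ))).natAbs ≤ (L + 2) ^ f.leaves

/-- The tensor of a vertex of the network of a formula, at the point `x`. -/
def tens {F : Type} [Field F] (x : ℕ → F) : Option Fm → Tens F 2
  | some .one => fun _ a b => if a = 0 ∧ b = 0 then 1 else 0
  | some (.var v) => fun c a b => if a = 0 ∧ b = 0 then (if c = 0 then 1 else x v) else 0
  | some (.add _ _) => fun c a b => if c = 0 then (if a = 0 ∧ b = 0 then 1 else 0)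
      else (if a = 1 ∧ b = 0 then 1 else if a = 0 ∧ b = 1 then 1 else 0)
  | some (.sub _ _) => fun c a b => if c = 0 then (if a = 0 ∧ b = 0 then 1 else 0)
      else (if a = 1 ∧ b = 0 then 1 else if a = 0 ∧ b = 1 then -1 else 0)
  | some (.mul _ _) => fun c a b => if c = 0 then (if a = 0 ∧ b = 0 then 1 else 0)
      else (if a = 1 ∧ b = 1 then 1 else 0)
  | _ => fun c a b => if c = 0 ∧ a = 0 ∧ b = 0 then 1 else 0

/-- MSG. The messages of the network of a formula. -/
def MsgStmt : Prop :=
  ∀ (F : Type) [Field F] (x : ℕ → F) (f : Fm) (m : ℕ) (ξ : List Bool),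
    ((∀ g, f.desc ξ = some g → g.depth ≤ m) →
      msg ![1, 0] (fun ξ => tens x (f.desc ξ)) m ξ =
        ![1, match f.desc ξ with | some g => g.eval x | none => 0])

/-- RKM. Ranks of the path operators of the network of a formula at a point `b` at which all proper
subformulas which are not identically zero are nonzero. -/
def RkmStmt : Prop :=
  ∀ (F : Type) [Field F] (f : Fm) (n : ℕ), f.depth ≤ n → ∀ b : ℕ → F,
    (∀ (ξ : List Bool) (g : Fm), ξ ≠ [] → f.desc ξ = some g → (∃ y : ℕ → F, g.eval y ≠ 0) →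
      g.eval b ≠ 0) →
    ∀ (z : List Bool) (i j : ℕ), i ≤ j → j ≤ z.length → z.length ≤ n → ∀ y : ℕ → F,
      (path ![1, 0] n (fun ξ => tens y (f.desc ξ)) z i j).rank ≤
        (path ![1, 0] n (fun ξ => tens b (f.desc ξ)) z i j).rank

/-- ADR. The addresses of the leaves labelled by the variable `v`. -/
def AdrStmt : Prop :=
  ∀ (f : Fm) (v : ℕ), ∃ R : Finset (List Bool), R.card ≤ f.reads v ∧
    ∀ ξ, f.desc ξ = some (.var v) → ξ ∈ R

/-- LOC. Low support perturbations for formulas. -/
def LocStmt : Prop :=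
  ∀ k : ℕ, ∃ B : ℕ, ∀ f : Fm, (∀ v, f.reads v ≤ k) → ∀ b : ℕ → ℚ,
    (∀ (ξ : List Bool) (g : Fm), ξ ≠ [] → f.desc ξ = some g → (∃ y : ℕ → ℚ, g.eval y ≠ 0) →
      g.eval b ≠ 0) →
    (∃ y : ℕ → ℚ, f.eval y ≠ 0) →
    ∃ (S : Finset ℕ) (y : ℕ → ℚ), S.card ≤ B ∧ (∀ v ∈ S, 0 < f.reads v) ∧
      (∀ v, v ∉ S → y v = b v) ∧ f.eval y ≠ 0

end Pool.Agent.WBX
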