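import Mathlib
import Pool.Agent.Helper12_WBX.Stmts
import Pool.Agent.Helper12_TRN.LemmaT
import Pool.Agent.Helper12_UO.Assemble

set_option autoImplicit false

/-! Low support perturbations for formulas. -/

namespace Pool.Agent.WBX

open Pool.Agent.TRN Matrix Pool.Agent Pool.Agent.UO

theorem Fm.child_reads {d : Bool} {f g : Fm} (h : f.child d = some g) (v : ℕ) :
    g.reads v ≤ f.reads v := by
  cases f with
  | zero => exact absurd h (by simp [Fm.child])
  | one => exact absurd h (by simp [Fm.child])
  | var w => exact absurd h (by simp [Fm.child])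
  | add a b =>
    simp only [Fm.child, Option.some.injEq] at h
    simp only [Fm.reads]
    rw [← h]
    split_ifs <;> omega
  | sub a b =>
    simp only [Fm.child, Option.some.injEq] at h
    simp only [Fm.reads]
    rw [← h]
    split_ifs <;> omega
  | mul a b =>
    simp only [Fm.child, Option.some.injEq] at h
    simp only [Fm.reads]
    rw [← h]
    split_ifs <;> omega

theorem Fm.desc_reads (ξ : List Bool) : ∀ {f g : Fm}, f.desc ξ = some g → ∀ v,
    g.reads v ≤ f.reads v := by
  induction ξ with
  | nil =>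
    intro f g h v
    simp only [Fm.desc, Option.some.injEq] at h
    rw [h]
  | cons d ξ ih =>
    intro f g h v
    simp only [Fm.desc, Option.bind_eq_some_iff] at h
    obtain ⟨f', h1, h2⟩ := h
    exact (ih h2 v).trans (Fm.child_reads h1 v)

theorem Fm.eval_congr {A : Type} [CommRing A] {x x' : ℕ → A} : ∀ (f : Fm),
    (∀ v, 0 < f.reads v → x v = x' v) → f.eval x = f.eval x' := by
  intro f
  induction f with
  | zero => intro _; rfl
  | one => intro _; rfl
  | var w =>
    intro h
    exact h w (by simp [Fm.reads])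
  | add f g ihf ihg =>
    intro h
    simp only [Fm.eval]
    rw [ihf fun v hv => h v (by simp only [Fm.reads]; omega),
      ihg fun v hv => h v (by simp only [Fm.reads]; omega)]
  | sub f g ihf ihg =>
    intro h
    simp only [Fm.eval]
    rw [ihf fun v hv => h v (by simp only [Fm.reads]; omega),
      ihg fun v hv => h v (by simp only [Fm.reads]; omega)]
  | mul f g ihf ihg =>
    intro h
    simp only [Fm.eval]
    rw [ihf fun v hv => h v (by simp only [Fm.reads]; omega),
      ihg fun v hv => h v (by simp only [Fm.reads]; omega)]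

theorem Fm.exists_bound : ∀ (f : Fm), ∃ N, ∀ v, 0 < f.reads v → v < N := by
  intro f
  induction f with
  | zero => exact ⟨0, fun v hv => absurd hv (by simp [Fm.reads])⟩
  | one => exact ⟨0, fun v hv => absurd hv (by simp [Fm.reads])⟩
  | var w =>
    refine ⟨w + 1, fun v hv => ?_⟩
    simp only [Fm.reads] at hv
    split_ifs at hv with h
    · omega
    · omega
  | add f g ihf ihg =>
    obtain ⟨N, hN⟩ := ihf
    obtain ⟨M, hM⟩ := ihg
    refine ⟨max N M, fun v hv => ?_⟩
    simp only [Fm.reads] at hv
    by_cases h : 0 < f.reads v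
    · exact lt_of_lt_of_le (hN v h) (le_max_left _ _)
    · exact lt_of_lt_of_le (hM v (by omega)) (le_max_right _ _)
  | sub f g ihf ihg =>
    obtain ⟨N, hN⟩ := ihf
    obtain ⟨M, hM⟩ := ihg
    refine ⟨max N M, fun v hv => ?_⟩
    simp only [Fm.reads] at hv
    by_cases h : 0 < f.reads v
    · exact lt_of_lt_of_le (hN v h) (le_max_left _ _)
    · exact lt_of_lt_of_le (hM v (by omega)) (le_max_right _ _)
  | mul f g ihf ihg =>
    obtain ⟨N, hN⟩ := ihf
    obtain ⟨M, hM⟩ := ihg
    refine ⟨max N M, fun v hv => ?_⟩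
    simp only [Fm.reads] at hv
    by_cases h : 0 < f.reads v
    · exact lt_of_lt_of_le (hN v h) (le_max_left _ _)
    · exact lt_of_lt_of_le (hM v (by omega)) (le_max_right _ _)

/-- The variables of the vertex of a subformula. -/
def vset (N : ℕ) : Option Fm → Finset (Fin N)
  | some (.var v) => if h : v < N then {⟨v, h⟩} else ∅
  | _ => ∅

theorem mem_vset {N : ℕ} {o : Option Fm} {i : Fin N} (h : i ∈ vset N o) :
    o = some (.var i) := by
  unfold vset at h
  split at h
  · split_ifs at h with hv
    · rw [Finset.mem_singleton] at h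
      subst h
      rfl
    · exact absurd h (Finset.notMem_empty _)
  · exact absurd h (Finset.notMem_empty _)

theorem vset_card (N : ℕ) (o : Option Fm) : (vset N o).card ≤ 1 := by
  unfold vset
  split
  · split_ifs with hv
    · rw [Finset.card_singleton]
    · rw [Finset.card_empty]
      omega
  · rw [Finset.card_empty]
    omega

theorem tens_poly {N : ℕ} (o : Option Fm) (c a b : Fin 2) :
    UO.IsPoly (fun y : Fin N → ℚ => tens (extZ y) o c a b) := by
  unfold tens
  split
  · exact UO.IsPoly.const _
  · by_cases h : a = 0 ∧ b = 0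
    · by_cases h' : c = 0
      · simpa only [h, and_self, h', ↓reduceIte] using UO.IsPoly.const (1 : ℚ)
      · simpa only [h, and_self, h', ↓reduceIte] using extZ_poly _
    · simpa only [h, ↓reduceIte] using UO.IsPoly.const (0 : ℚ)
  · exact UO.IsPoly.const _
  · exact UO.IsPoly.const _
  · exact UO.IsPoly.const _
  · exact UO.IsPoly.const _

theorem tens_dep {N : ℕ} (o : Option Fm) (y y' : Fin N → ℚ) (h : ∀ i ∈ vset N o, y i = y' i) :
    tens (extZ y) o = tens (extZ y') o := by
  unfold tens
  split
  · rfl
  · rename_i v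
    have hv : extZ y v = extZ y' v := by
      unfold extZ
      split_ifs with hv
      · apply h
        unfold vset
        simp only [hv, ↓reduceDIte, Finset.mem_singleton]
      · rfl
    rw [hv]
  · rfl
  · rfl
  · rfl
  · rfl

/-- The network of a formula. -/
noncomputable def net (f : Fm) (N : ℕ) : Net ℚ (Fin N) 2 where
  n := f.depth
  e := ![1, 0]
  T := fun ξ y => tens (extZ y) (f.desc ξ)
  V := fun ξ => vset N (f.desc ξ)
  poly := fun ξ c a b => tens_poly _ c a b
  dep := fun ξ y y' h => tens_dep _ y y' h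

/-- LOC. -/
theorem loc_of (hALN : AlignStmt) (hMUL : MulStmt.{0, 0}) (hmsg : MsgStmt) (hrkm : RkmStmt)
    (hadr : AdrStmt) : LocStmt := by
  classical
  intro k
  refine ⟨bT hALN 2 k 1 (2 ^ 1), ?_⟩
  intro f hf b hb hne
  obtain ⟨N, hN⟩ := f.exists_bound
  have hext : ∀ x : ℕ → ℚ, ∀ g : Fm, (∀ v, g.reads v ≤ f.reads v) →
      g.eval (extZ (fun i : Fin N => x i)) = g.eval x := by
    intro x g hg
    apply Fm.eval_congr
    intro v hv
    have := hN v (lt_of_lt_of_le hv (hg v))
    simp only [extZ, this, ↓reduceDIte]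
  obtain ⟨u, hu⟩ : ∃ u : List Bool, u.length = f.depth := ⟨List.replicate f.depth false, by simp⟩
  have hout : ∀ y : Fin N → ℚ, f.eval (extZ y) = (net f N).P u 0 f.depth y 1 0 := by
    intro y
    have h1 := hmsg ℚ (extZ y) f f.depth [] (by
      intro g hg
      simp only [Fm.desc, Option.some.injEq] at hg
      rw [hg])
    have h2 := msg_path (![1, 0] : Fin 2 → ℚ) f.depth (fun ξ => tens (extZ y) (f.desc ξ)) u 0
      f.depth (Nat.zero_le _) (by omega) le_rfl
    rw [List.take_zero, Nat.sub_zero, h1, Nat.sub_self] at h2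
    have h3 := congrFun h2 1
    simp only [Fm.desc] at h3
    rw [Matrix.mulVec, dotProduct, Fin.sum_univ_two] at h3
    simp only [msg, Matrix.cons_val_zero, Matrix.cons_val_one, mul_one, mul_zero, add_zero] at h3
    exact h3
  have hrk : ∀ (z : List Bool) (i j : ℕ), z.length ≤ f.depth → i ≤ j → j ≤ z.length →
      ∀ y : Fin N → ℚ, ((net f N).P z i j y).rank ≤ ((net f N).P z i j (fun i => b i)).rank := by
    intro z i j hz hij hj y
    refine hrkm ℚ f f.depth le_rfl (extZ (fun i : Fin N => b i)) ?_ z i j hij hj hz (extZ y)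
    intro ξ g hξ hg hy
    rw [hext b g fun v => Fm.desc_reads ξ hg v]
    exact hb ξ g hξ hg hy
  choose reads hreads1 hreads2 using fun v : ℕ => hadr f v
  let φ : Matrix (Fin 1 → Fin 2) (Fin 1 → Fin 2) ℚ →ₗ[ℚ] ℚ :=
    { toFun := fun M => M (fun _ => 1) (fun _ => 0)
      map_add' := fun _ _ => rfl
      map_smul' := fun _ _ => rfl }
  have hφ : ∀ y : Fin N → ℚ, φ (kpow 1 ((net f N).P u 0 f.depth y)) = f.eval (extZ y) := by
    intro y
    show kpow 1 ((net f N).P u 0 f.depth y) (fun _ => 1) (fun _ => 0) = _
    rw [kpow_apply, hout]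
    simp
  obtain ⟨S, y, hS, hyS, hy⟩ := lemmaT hALN hMUL (net f N) k 1 1 (fun v => reads v)
    ⟨fun v => (hreads1 v).trans (hf v), fun v ξ _ hv => hreads2 v ξ (mem_vset hv),
      fun ξ => vset_card _ _⟩ (fun i => b i) u 0 f.depth (by omega) (by exact le_rfl) (fun _ => 0)
    (fun i j h1 h2 h3 _ y => hrk u i j (by omega) h2 (by omega) y)
    (fun z hz _ _ i j h1 h2 h3 _ y => hrk z i j hz h2 h3 y) φ (by
      obtain ⟨y, hy⟩ := hne
      refine ⟨fun i => y i, ?_⟩
      rw [hφ, hext y f fun v => le_rfl]
      exact hy)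
  rw [hφ] at hy
  -- the perturbation
  refine ⟨(S.map Fin.valEmbedding).filter fun v => 0 < f.reads v,
    fun v => if 0 < f.reads v then extZ y v else b v, ?_, ?_, ?_, ?_⟩
  · refine (Finset.card_filter_le _ _).trans ?_
    rw [Finset.card_map]
    exact hS.le
  · intro v hv
    exact (Finset.mem_filter.mp hv).2
  · intro v hv
    show (if 0 < f.reads v then extZ y v else b v) = b v
    split_ifs with h
    · have hvN := hN v h
      have : (⟨v, hvN⟩ : Fin N) ∉ S := by
        intro hvS
        apply hv
        rw [Finset.mem_filter, Finset.mem_map]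
        exact ⟨⟨⟨v, hvN⟩, hvS, rfl⟩, h⟩
      simp only [extZ, hvN, ↓reduceDIte]
      exact hyS _ this
    · rfl
  · have : f.eval (fun v => if 0 < f.reads v then extZ y v else b v) = f.eval (extZ y) := by
      apply Fm.eval_congr
      intro v hv
      simp only [hv, ↓reduceIte]
    rw [this]
    exact hy

end Pool.Agent.WBX
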