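import Mathlib
import Pool.Agent.Helper12_WBX.Loc

set_option autoImplicit false

/-! Correctness of the greedy walk. -/

namespace Pool.Agent.WBX

open Pool.Agent.Helper78_ACIT

theorem values_length {A : Type} [CommRing A] (x : ℕ → A) (G : List Gate) :
    (values x G).length = G.length := by
  have key : ∀ (G : List Gate) (acc : List A),
      (G.foldl (fun vals g => vals ++ [g.value x vals]) acc).length = acc.length + G.length := by
    intro G
    induction G with
    | nil => intro acc; rfl
    | cons g G ih =>
      intro acc
      simp only [List.foldl_cons]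
      rw [ih, List.length_append, List.length_cons, List.length_cons, List.length_nil]
      omega
  have := key G []
  unfold values
  simpa using this

theorem out_eq_getD {A : Type} [CommRing A] (x : ℕ → A) (G : List Gate) :
    out x G = (values x G).getD (G.length - 1) 0 := by
  unfold out
  rw [List.getLastD_eq_getLast?, List.getLast?_eq_getElem?, values_length,
    List.getD_eq_getElem?_getD]

theorem Fm.eval_map {A B : Type} [CommRing A] [CommRing B] (φ : A →+* B) (x : ℕ → A) (f : Fm) :
    φ (f.eval x) = f.eval fun v => φ (x v) := by
  induction f with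
  | zero => exact map_zero φ
  | one => exact map_one φ
  | var v => rfl
  | add f g ihf ihg => simp only [Fm.eval, map_add, ihf, ihg]
  | sub f g ihf ihg => simp only [Fm.eval, map_sub, ihf, ihg]
  | mul f g ihf ihg => simp only [Fm.eval, map_mul, ihf, ihg]

theorem mem_varList {G : List Gate} {v : ℕ} (h : 0 < G.count (.var v)) : v ∈ varList G := by
  rw [List.count_pos_iff] at h
  unfold varList
  rw [List.mem_filterMap]
  exact ⟨.var v, h, rfl⟩

theorem varList_length (G : List Gate) : (varList G).length ≤ G.length :=
  List.length_filterMap_le _ _

/-- Correctness of the walk. -/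
theorem walk_spec (hunv : UnvStmt) (hunr : UnrStmt) (hund : UndStmt) (hgrd : GrdStmt)
    (hnea : NeaStmt) (hloc : LocStmt) (k : ℕ) : ∃ B : ℕ, ∀ G : List Gate,
    (∀ (i : ℕ) (g : Gate), G[i]? = some g → g.RefsBelow i) → FanOutOne G →
    (∀ v, G.count (.var v) ≤ k) → ∀ i, i ≤ G.length →
      (∀ v, coord (walk B (k * G.length) G i) v ≤ k * G.length) ∧
      ∀ j, j < i → (∃ y : ℕ → ℚ, (unf G (j + 1) j).eval y ≠ 0) →
        (valuesAt G (walk B (k * G.length) G i)).getD j 0 ≠ 0 := by
  obtain ⟨B, hB⟩ := hloc k
  refine ⟨B, ?_⟩
  intro G hG hF hk i
  obtain ⟨L, hL⟩ : ∃ L, L = k * G.length := ⟨_, rfl⟩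
  rw [← hL]
  induction i with
  | zero =>
    intro _
    exact ⟨fun v => Nat.zero_le _, fun j hj => absurd hj (Nat.not_lt_zero j)⟩
  | succ i ih =>
    intro hi
    obtain ⟨ih1, ih2⟩ := ih (by omega)
    obtain ⟨b, hb⟩ : ∃ b, b = walk B L G i := ⟨_, rfl⟩
    rw [← hb] at ih1 ih2
    have hwalk : walk B L G (i + 1) = ((nearby (varList G) L B b).find? (better G i b)).getD b := by
      rw [hb]
      rfl
    obtain ⟨-, -, hnea3, hnea4⟩ := hnea (varList G) L B b
    -- values of the gates
    have hval : ∀ (c : List (ℕ × ℕ)) (j : ℕ), j < G.length →
        (valuesAt G c).getD j 0 = (unf G (j + 1) j).eval (fun v => (coord c v : ℤ)) :=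
      fun c j hj => hunv ℤ (fun v => (coord c v : ℤ)) G hG j hj
    have hvalQ : ∀ (c : List (ℕ × ℕ)) (j : ℕ), j < G.length → (valuesAt G c).getD j 0 ≠ 0 →
        (unf G (j + 1) j).eval (fun v => (coord c v : ℚ)) ≠ 0 := by
      intro c j hj h
      rw [hval c j hj] at h
      have h2 := Fm.eval_map (Int.castRingHom ℚ) (fun v => (coord c v : ℤ)) (unf G (j + 1) j)
      have h3 : (fun v => Int.castRingHom ℚ (coord c v : ℤ)) = fun v => (coord c v : ℚ) := by
        funext v
        simp
      rw [h3] at h2
      rw [← h2]
      intro h4
      apply h
      rw [eq_intCast, Int.cast_eq_zero] at h4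
      exact h4
    rcases hfind : (nearby (varList G) L B b).find? (better G i b) with _ | c
    · -- no better point: gate `i` is identically zero
      rw [hfind, Option.getD_none] at hwalk
      rw [hwalk]
      refine ⟨ih1, fun j hj hne => ?_⟩
      by_cases hji : j < i
      · exact ih2 j hji hne
      exfalso
      have hji' : j = i := by omega
      subst hji'
      obtain ⟨S, y, hS, hSr, hy, hyne⟩ := hB (unf G (j + 1) j)
        (fun v => ((hunr G hG hF j (by omega)).1 v).trans (hk v)) (fun v => (coord b v : ℚ))
        (by
          intro ξ g hξ hg hgne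
          obtain ⟨l, hl, rfl⟩ := hund G hG j (by omega) ξ g hξ hg
          exact hvalQ b l (by omega) (ih2 l hl hgne)) hne
      obtain ⟨c, hc1, hc2, hc3⟩ := hgrd
        (unf G (j + 1) j :: ((List.range j).filter fun l =>
          decide ((valuesAt G b).getD l 0 ≠ 0)).map fun l => unf G (l + 1) l) S (coord b) L
        (by
          intro v _
          have h1 : ∀ a ∈ ((unf G (j + 1) j :: ((List.range j).filter fun l =>
              decide ((valuesAt G b).getD l 0 ≠ 0)).map fun l => unf G (l + 1) l).map
                (Fm.reads v)), a ≤ k := by
            intro a ha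
            rw [List.mem_map] at ha
            obtain ⟨f, hf, rfl⟩ := ha
            rw [List.mem_cons, List.mem_map] at hf
            rcases hf with rfl | ⟨l, hl, rfl⟩
            · exact ((hunr G hG hF j (by omega)).1 v).trans (hk v)
            · have hl' := List.mem_range.mp (List.mem_filter.mp hl).1
              exact ((hunr G hG hF l (by omega)).1 v).trans (hk v)
          refine (List.sum_le_card_nsmul _ k h1).trans ?_
          rw [hL, smul_eq_mul, mul_comm]
          apply Nat.mul_le_mul_left
          rw [List.length_map, List.length_cons, List.length_map]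
          have := List.length_filter_le (fun l => decide ((valuesAt G b).getD l 0 ≠ 0))
            (List.range j)
          rw [List.length_range] at this
          omega)
        (by
          intro f hf
          rw [List.mem_cons, List.mem_map] at hf
          rcases hf with rfl | ⟨l, hl, rfl⟩
          · exact ⟨y, hy, hyne⟩
          · have hl' := List.mem_range.mp (List.mem_filter.mp hl).1
            have hl2 := (List.mem_filter.mp hl).2
            rw [decide_eq_true_eq] at hl2
            exact ⟨fun v => (coord b v : ℚ), fun v _ => rfl, hvalQ b l (by omega) hl2⟩)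
      obtain ⟨c', hc', hcc⟩ := hnea4 S c hS
        (fun v hv => mem_varList (lt_of_lt_of_le (hSr v hv)
          ((hunr G hG hF j (by omega)).1 v))) hc2 hc1
      rw [List.find?_eq_none] at hfind
      apply hfind c' hc'
      unfold better
      simp only [Bool.and_eq_true, decide_eq_true_eq, List.all_eq_true, List.mem_range]
      constructor
      · rw [hval c' j (by omega), hcc]
        exact hc3 _ List.mem_cons_self
      · intro l hl
        by_cases h0 : (valuesAt G b).getD l 0 = 0
        · exact Or.inl h0
        · right
          rw [hval c' l (by omega), hcc]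
          apply hc3
          apply List.mem_cons_of_mem
          rw [List.mem_map]
          refine ⟨l, ?_, rfl⟩
          rw [List.mem_filter, List.mem_range, decide_eq_true_eq]
          exact ⟨hl, h0⟩
    · rw [hfind, Option.getD_some] at hwalk
      rw [hwalk]
      have hmem := List.mem_of_find?_eq_some hfind
      have hbet := List.find?_some hfind
      unfold better at hbet
      simp only [Bool.and_eq_true, decide_eq_true_eq, List.all_eq_true, List.mem_range] at hbet
      refine ⟨hnea3 ih1 c hmem, fun j hj hne => ?_⟩
      by_cases hji : j < i
      · rcases hbet.2 j hji with h | h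
        · exact absurd h (ih2 j hji hne)
        · exact h
      · have hji' : j = i := by omega
        subst hji'
        exact hbet.1

end Pool.Agent.WBX
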