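import Mathlib
import Pool.Agent.Helper12_WBX.Alg

set_option autoImplicit false

/-! The final theorem of the squad WBX. -/

namespace Pool.Agent.WBX

open Pool.Agent.Helper78_ACIT

theorem exists_ne_of_ne {f : Fm} (h : f.eval (MvPolynomial.X : ℕ → MvPolynomial ℕ ℤ) ≠ 0) :
    ∃ y : ℕ → ℚ, f.eval y ≠ 0 := by
  by_contra hcon
  push Not at hcon
  apply h
  have h1 : MvPolynomial.map (Int.castRingHom ℚ)
      (f.eval (MvPolynomial.X : ℕ → MvPolynomial ℕ ℤ)) = 0 := by
    apply MvPolynomial.funext
    intro y
    rw [map_zero]
    have h2 := Fm.eval_map ((MvPolynomial.eval y).comp (MvPolynomial.map (Int.castRingHom ℚ)))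
      (MvPolynomial.X : ℕ → MvPolynomial ℕ ℤ) f
    rw [RingHom.comp_apply] at h2
    rw [h2]
    have h3 : (fun v => ((MvPolynomial.eval y).comp (MvPolynomial.map (Int.castRingHom ℚ)))
        (MvPolynomial.X v : MvPolynomial ℕ ℤ)) = y := by
      funext v
      rw [RingHom.comp_apply, MvPolynomial.map_X, MvPolynomial.eval_X]
    rw [h3]
    exact hcon y
  have hinj := MvPolynomial.map_injective (σ := ℕ) (Int.castRingHom ℚ)
    (RingHom.injective_int (Int.castRingHom ℚ))
  apply hinj
  rw [h1, map_zero]

theorem final (hunv : UnvStmt) (hunr : UnrStmt) (hund : UndStmt) (hgrd : GrdStmt)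
    (hnea : NeaStmt) (hbit : BitStmt) (hloc : LocStmt) (k : ℕ) :
    ∃ B : ℕ, ∀ G : List Gate, WellFormed G → FanOutOne G → (∀ v, G.count (.var v) ≤ k) →
      (∀ i < G.length, ((values (MvPolynomial.X : ℕ → MvPolynomial ℕ ℤ) G).getD i 0 = 0 ↔
        (valuesAt G (walk B (k * G.length) G G.length)).getD i 0 = 0)) ∧
      (G ∈ ACIT ↔ out (fun v => (coord (walk B (k * G.length) G G.length) v : ℤ)) G = 0) ∧
      ∀ i < G.length,
        (nearby (varList G) (k * G.length) B (walk B (k * G.length) G i)).length ≤
          (1 + G.length * (k * G.length + 1)) ^ B ∧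
        ∀ c ∈ nearby (varList G) (k * G.length) B (walk B (k * G.length) G i),
          c.length ≤ B * G.length ∧
          ∀ a ∈ valuesAt G c, a.natAbs ≤ (k * G.length + 2) ^ G.length := by
  obtain ⟨B, hB⟩ := walk_spec hunv hunr hund hgrd hnea hloc k
  refine ⟨B, ?_⟩
  intro G hG hF hk
  obtain ⟨L, hL⟩ : ∃ L, L = k * G.length := ⟨_, rfl⟩
  have hspec := hB G hG.2 hF hk
  rw [← hL] at hspec ⊢
  have hgates : ∀ i < G.length, ((values (MvPolynomial.X : ℕ → MvPolynomial ℕ ℤ) G).getD i 0 = 0 ↔
      (valuesAt G (walk B L G G.length)).getD i 0 = 0) := by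
    intro i hi
    have h1 := hunv (MvPolynomial ℕ ℤ) MvPolynomial.X G hG.2 i hi
    have h2 := hunv ℤ (fun v => (coord (walk B L G G.length) v : ℤ)) G hG.2 i hi
    constructor
    · intro h0
      rw [h1] at h0
      show (values (fun v => (coord (walk B L G G.length) v : ℤ)) G).getD i 0 = 0
      rw [h2]
      have h3 := Fm.eval_map (MvPolynomial.eval (fun v => (coord (walk B L G G.length) v : ℤ)))
        (MvPolynomial.X : ℕ → MvPolynomial ℕ ℤ) (unf G (i + 1) i)
      rw [h0, map_zero] at h3
      simp only [MvPolynomial.eval_X] at h3
      exact h3.symm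
    · intro h0
      by_contra hne
      rw [h1] at hne
      exact (hspec G.length le_rfl).2 i hi (exists_ne_of_ne hne) h0
  have hpos : 0 < G.length := List.length_pos_iff.mpr hG.1
  refine ⟨hgates, ?_, ?_⟩
  · rw [out_eq_getD]
    have h1 := hgates (G.length - 1) (by omega)
    unfold valuesAt at h1
    rw [← h1, ← out_eq_getD]
    constructor
    · intro h
      exact h.2
    · intro h
      exact ⟨hG, h⟩
  · intro i hi
    obtain ⟨h1, h2, h3, -⟩ := hnea (varList G) L B (walk B L G i)
    refine ⟨?_, ?_⟩
    · rw [h1]
      apply Nat.pow_le_pow_left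
      have := Nat.mul_le_mul_right (L + 1) (varList_length G)
      omega
    · intro c hc
      constructor
      · have hlen : ∀ j, (walk B L G j).length ≤ B * j := by
          intro j
          induction j with
          | zero => exact Nat.zero_le _
          | succ j ih =>
            have hw : walk B L G (j + 1) =
                ((nearby (varList G) L B (walk B L G j)).find? (better G j (walk B L G j))).getD
                  (walk B L G j) := rfl
            rw [hw, Nat.mul_succ]
            rcases hf : (nearby (varList G) L B (walk B L G j)).find?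
                (better G j (walk B L G j)) with _ | c'
            · rw [Option.getD_none]
              omega
            · rw [Option.getD_some]
              have hm := List.mem_of_find?_eq_some hf
              have := (hnea (varList G) L B (walk B L G j)).2.1 c' hm
              omega
        refine (h2 c hc).trans ?_
        have h4 := hlen i
        have h5 : B * (i + 1) ≤ B * G.length := Nat.mul_le_mul_left B hi
        rw [Nat.mul_succ] at h5
        omega
      · intro a ha
        have hcL := h3 (hspec i hi.le).1 c hc
        obtain ⟨j, hj, hja⟩ := List.getElem_of_mem ha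
        have hlen : (valuesAt G c).length = G.length := values_length _ _
        have hjG : j < G.length := by
          rw [← hlen]
          exact hj
        have h4 := hunv ℤ (fun v => (coord c v : ℤ)) G hG.2 j hjG
        have h5 : a = (values (fun v => (coord c v : ℤ)) G).getD j 0 := by
          rw [← hja, List.getD_eq_getElem?_getD]
          unfold valuesAt
          rw [List.getElem?_eq_getElem]
          rfl
        rw [h5, h4]
        refine (hbit (unf G (j + 1) j) L (coord c) hcL).trans ?_
        exact Nat.pow_le_pow_right (by omega) (hunr G hG.2 hF j hjG).2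

end Pool.Agent.WBX
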