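import Mathlib
import Pool.Agent.Helper12_WBX.Fin
import Pool.Agent.TREN.Aln
import Pool.Agent.TREN.Cmb
import Pool.Agent.TREN.RAM
import Pool.Agent.TREN.Mul
import Pool.Agent.Helper69_WBX.Nea
import Pool.Agent.Helper20_WBX.Und
import Pool.Agent.Helper32_WBX.Msg
import Pool.Agent.Helper32_WBX.Grd
import Pool.Agent.Helper39_WBX.Unv
import Pool.Agent.Helper76_WBX.Bit
import Pool.Agent.Helper65_WBX.Rkm
import Pool.Agent.Helper83_WBX.Adr

set_option autoImplicit false

/-! Assembly of the modules of the squad WBX. -/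

namespace Pool.Agent.WBX

open Pool.Agent.Helper78_ACIT

theorem main (k : ℕ) : ∃ B : ℕ, ∀ G : List Gate, WellFormed G → FanOutOne G →
    (∀ v, G.count (.var v) ≤ k) →
      (∀ i < G.length, ((values (MvPolynomial.X : ℕ → MvPolynomial ℕ ℤ) G).getD i 0 = 0 ↔
        (valuesAt G (walk B (k * G.length) G G.length)).getD i 0 = 0)) ∧
      (G ∈ ACIT ↔ out (fun v => (coord (walk B (k * G.length) G G.length) v : ℤ)) G = 0) ∧
      ∀ i < G.length,
        (nearby (varList G) (k * G.length) B (walk B (k * G.length) G i)).length ≤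
          (1 + G.length * (k * G.length + 1)) ^ B ∧
        ∀ c ∈ nearby (varList G) (k * G.length) B (walk B (k * G.length) G i),
          c.length ≤ B * G.length ∧
          ∀ a ∈ valuesAt G c, a.natAbs ≤ (k * G.length + 2) ^ G.length :=
  final H39.unv H39.unr H20.und H32.grd H69.nea H76.bit
    (loc_of (TRN.Aln.aln TREN.RAM.ram (TRN.cmb TREN.RAM.ram)) TRN.mul H32.msg (H65.rkm H32.msg) adr) k

end Pool.Agent.WBX
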